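import Pool.Agent.W443.DX.Stm3
import Pool.Agent.H922R2.K8
import Pool.Agent.Results.MP_e9297c_ag.InfiniteOrderSymmetry

/-!
DX2-JCS: plane Keller maps intertwining automorphisms.
-/

set_option autoImplicit false
set_option linter.unusedSectionVars false

open MvPolynomial Pool.Agent.H922R2 Pool.Agent.W443.DX

namespace Pool.Agent.W661.DX

section

variable {k : Type*} [Field k] [CharZero k] {σ : Type*} [Fintype σ] [DecidableEq σ]

/-- The minimal denominator is a semi-invariant. -/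
theorem semi (F : σ → MvPolynomial σ k) (hJ : IsUnit (Matrix.det (jac F)))
    (ψ φ : MvPolynomial σ k ≃ₐ[k] MvPolynomial σ k)
    (hrel : ∀ a, aeval F (ψ a) = φ (aeval F a)) :
    ∃ q : MvPolynomial σ k, q ≠ 0 ∧
      (∀ i, ∃ N : ℕ, IsIntegral (Algebra.adjoin k (Set.range F)) ((aeval F q) ^ N * X i)) ∧
      Associated (ψ q) q := by
  obtain ⟨s, hs, hmin⟩ := exists_min_goodDen F hJ
  have hinj := aeval_injective F hJ
  have hrel2 : ∀ a, aeval F (ψ.symm a) = φ.symm (aeval F a) := by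
    intro a
    rw [AlgEquiv.eq_symm_apply, ← hrel, AlgEquiv.apply_symm_apply]
  have hφ1 : ∀ s, s ∈ SS F → φ s ∈ SS F := by
    rintro _ ⟨a, rfl⟩
    exact ⟨ψ a, hrel a⟩
  have hφ2 : ∀ s, s ∈ SS F → φ.symm s ∈ SS F := by
    rintro _ ⟨a, rfl⟩
    exact ⟨ψ.symm a, hrel2 a⟩
  -- integrality transport
  have hint : ∀ (ψ : MvPolynomial σ k ≃ₐ[k] MvPolynomial σ k), (∀ s, s ∈ SS F → ψ s ∈ SS F) →
      ∀ r, IsIntegral (SS F) r → IsIntegral (SS F) (ψ r) := by
    intro ψ hψ r hr
    obtain ⟨q, hq, hqr⟩ := hr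
    let j : SS F →+* SS F := (ψ.toRingEquiv.toRingHom.comp (SS F).val.toRingHom).codRestrict (SS F)
      (fun s => hψ s s.2)
    refine ⟨q.map j, hq.map _, ?_⟩
    rw [Polynomial.eval₂_map]
    have : (algebraMap (SS F) (MvPolynomial σ k)).comp j =
      ψ.toRingEquiv.toRingHom.comp (algebraMap (SS F) (MvPolynomial σ k)) := rfl
    rw [this]
    have h2 := Polynomial.hom_eval₂ q (algebraMap (SS F) (MvPolynomial σ k))
      ψ.toRingEquiv.toRingHom r
    rw [hqr, map_zero] at h2
    exact h2.symm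
  have hgood : ∀ (ψ : MvPolynomial σ k ≃ₐ[k] MvPolynomial σ k)
      (hψ : ∀ s, s ∈ SS F → ψ s ∈ SS F),
      GoodDen F ⟨ψ s, hψ s s.2⟩ := by
    intro ψ hψ
    refine ⟨?_, fun r => ?_⟩
    · intro h0
      have h1 : ψ s = 0 := congrArg Subtype.val h0
      rw [map_eq_zero_iff _ ψ.injective] at h1
      exact hs.1 (Subtype.ext h1)
    · obtain ⟨N, hN⟩ := hs.2 (ψ.symm r)
      refine ⟨N, ?_⟩
      have := hint ψ hψ _ hN
      rw [map_mul, map_pow, AlgEquiv.apply_symm_apply] at this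
      exact this
  obtain ⟨u, hu⟩ := hmin _ (hgood φ hφ1)
  obtain ⟨v, hv⟩ := hmin _ (hgood φ.symm hφ2)
  have hu' : φ s = s * (u : MvPolynomial σ k) := congrArg Subtype.val hu
  have hv' : φ.symm s = s * (v : MvPolynomial σ k) := congrArg Subtype.val hv
  have h1 : (s : MvPolynomial σ k) = s * (u * φ v) := by
    conv_lhs => rw [← φ.apply_symm_apply (s : MvPolynomial σ k), hv', map_mul, hu']
    ring
  have hs0 : (s : MvPolynomial σ k) ≠ 0 := fun h => hs.1 (Subtype.ext h)
  have h2 : (u : MvPolynomial σ k) * φ v = 1 := by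
    have : (s : MvPolynomial σ k) * (u * φ v) = s * 1 := by rw [← h1, mul_one]
    exact mul_left_cancel₀ hs0 this
  obtain ⟨q, hq⟩ : ∃ q, aeval F q = (s : MvPolynomial σ k) := s.2
  obtain ⟨u1, hu1⟩ : ∃ q, aeval F q = (u : MvPolynomial σ k) := u.2
  obtain ⟨v1, hv1⟩ : ∃ q, aeval F q = (v : MvPolynomial σ k) := v.2
  refine ⟨q, ?_, ?_, ?_⟩
  · rintro rfl
    rw [map_zero] at hq
    exact hs0 hq.symm
  · intro i
    obtain ⟨N, hN⟩ := hs.2 (X i)
    refine ⟨N, ?_⟩
    rw [hq]
    have h4 : Algebra.adjoin k (Set.range F) = SS F := Algebra.adjoin_range_eq_range_aeval k F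
    rw [h4]
    exact hN
  · have h5 : ψ q = q * u1 := by
      apply hinj
      rw [hrel, hq, hu', map_mul, hq, hu1]
    have h6 : u1 * ψ v1 = 1 := by
      apply hinj
      rw [map_mul, hrel, hu1, hv1, h2, map_one]
    rw [h5]
    exact (associated_mul_unit_left q u1 (IsUnit.of_mul_eq_one _ h6))

end

/-- DX2-JCS -/
theorem jcs : S_JCS := by
  intro k _ _ F T U S V hJ hTU hUT hSV hVS hFT hT
  have e1 : (aeval T : MvPolynomial (Fin 2) k →ₐ[k] MvPolynomial (Fin 2) k).comp (aeval U) =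
      AlgHom.id k _ := by
    apply MvPolynomial.algHom_ext
    intro j
    rw [AlgHom.comp_apply, aeval_X]
    exact congrFun hTU j
  have e2 : (aeval U : MvPolynomial (Fin 2) k →ₐ[k] MvPolynomial (Fin 2) k).comp (aeval T) =
      AlgHom.id k _ := by
    apply MvPolynomial.algHom_ext
    intro j
    rw [AlgHom.comp_apply, aeval_X]
    exact congrFun hUT j
  have e3 : (aeval S : MvPolynomial (Fin 2) k →ₐ[k] MvPolynomial (Fin 2) k).comp (aeval V) =
      AlgHom.id k _ := by
    apply MvPolynomial.algHom_ext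
    intro j
    rw [AlgHom.comp_apply, aeval_X]
    exact congrFun hSV j
  have e4 : (aeval V : MvPolynomial (Fin 2) k →ₐ[k] MvPolynomial (Fin 2) k).comp (aeval S) =
      AlgHom.id k _ := by
    apply MvPolynomial.algHom_ext
    intro j
    rw [AlgHom.comp_apply, aeval_X]
    exact congrFun hVS j
  let ψ : MvPolynomial (Fin 2) k ≃ₐ[k] MvPolynomial (Fin 2) k :=
    AlgEquiv.ofAlgHom (aeval T) (aeval U) e1 e2
  let φ : MvPolynomial (Fin 2) k ≃ₐ[k] MvPolynomial (Fin 2) k :=
    AlgEquiv.ofAlgHom (aeval S) (aeval V) e3 e4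
  have hψa : ∀ a, ψ a = aeval T a := fun a => rfl
  have hφa : ∀ a, φ a = aeval S a := fun a => rfl
  have hrel : ∀ a, aeval F (ψ a) = φ (aeval F a) := by
    intro a
    have e5 : (aeval F : MvPolynomial (Fin 2) k →ₐ[k] MvPolynomial (Fin 2) k).comp (aeval T) =
        (aeval S : MvPolynomial (Fin 2) k →ₐ[k] MvPolynomial (Fin 2) k).comp (aeval F) := by
      apply MvPolynomial.algHom_ext
      intro j
      rw [AlgHom.comp_apply, aeval_X, AlgHom.comp_apply, aeval_X]
      exact congrFun hFT j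
    rw [hψa, hφa]
    exact congrArg (fun f => f a) e5
  have hJ1 : (Matrix.of fun i j : Fin 2 => pderiv i (F j)).det = 1 := by
    rw [Matrix.det_fin_two]
    simp only [Matrix.of_apply]
    have := hJ
    unfold Jac at this
    rw [← this]
    ring
  have hJ2 : (Matrix.det (jac F)) = 1 := by
    rw [Matrix.det_fin_two]
    simp only [Matrix.of_apply]
    have := hJ
    unfold Jac at this
    rw [← this]
  obtain ⟨q, hq0, hqi, hqa⟩ := semi F (by rw [hJ2]; exact isUnit_one) ψ φ hrel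
  have hpow : ∀ m : ℕ, ∀ j, itc T m j = (ψ ^ m) (X j) := by
    intro m
    induction m with
    | zero => intro j; rfl
    | succ m ih =>
      intro j
      have h1 : itc T (m + 1) = cmc T (itc T m) := Function.iterate_succ_apply' _ _ _
      rw [h1]
      change aeval T (itc T m j) = _
      rw [ih, pow_succ']
      rfl
  have hψ : ∀ n, 0 < n → ψ ^ n ≠ 1 := by
    intro n hn h
    apply hT n hn
    funext j
    rw [hpow, h]
    rfl
  obtain ⟨G, hG1, hG2⟩ := Pool.Agent.Results.MP_e9297c_ag.InfiniteOrderSymmetry.result F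
    (by rw [hJ1]; exact isUnit_one) q hq0 hqi ψ hψ hqa
  exact ⟨G, funext hG1, funext hG2⟩

end Pool.Agent.W661.DX
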